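import Pool.Agent.Helper15.PC.Hyper

set_option autoImplicit false

namespace Pool.Agent.Results.MP_0d40a0_lc.TwistAverage

open MvPolynomial Pool.Agent.Helper15.PC

/-- the number of nonzero zeros of a homogeneous polynomial, computed by filtering -/
theorem filter_card {K : Type} [Field K] [Fintype K] [DecidableEq K] {d : ℕ} (hd : 0 < d)
    {f : MvPolynomial (Fin 3) K} (hf : f.IsHomogeneous d) :
    ((Finset.univ : Finset (Fin 3 → K)).filter fun v => eval v f = 0).card =
      1 + Nat.card {v : Fin 3 → K // v ≠ 0 ∧ eval v f = 0} := by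
  classical
  have h0 : eval (0 : Fin 3 → K) f = 0 := by
    have := eval_smul_hom hf (0 : K) 0
    rw [smul_zero, zero_pow hd.ne', zero_mul] at this
    exact this
  have h1 : (Finset.univ : Finset (Fin 3 → K)).filter (fun v => eval v f = 0) =
      insert 0 ((Finset.univ : Finset (Fin 3 → K)).filter fun v => v ≠ 0 ∧ eval v f = 0) := by
    ext v
    simp only [Finset.mem_filter, Finset.mem_univ, true_and, Finset.mem_insert]
    constructor
    · intro h
      by_cases hv : v = 0
      · exact Or.inl hv
      · exact Or.inr ⟨hv, h⟩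
    · rintro (rfl | h)
      · exact h0
      · exact h.2
  rw [h1, Finset.card_insert_of_notMem (by simp), Nat.card_eq_fintype_card,
    Fintype.card_subtype, add_comm]

theorem general {K : Type} [Field K] [Fintype K] (a : Fin 3 → ℕ) (ha : ∀ i, 0 < a i) {d : ℕ}
    (hd : 0 < d) (F : MvPolynomial (Fin 3) K) (hF : IsWeightedHomogeneous a F d)
    (hns : Nonsingular (pull a 1 F)) (U : Fin 3 → Finset Kˣ) (hU : ∀ i, Reps (a i) (U i)) :
    (∀ t : Fin 3 → Kˣ, (pull a (fun i => (t i : K)) F).IsHomogeneous d ∧
      Nonsingular (pull a (fun i => (t i : K)) F)) ∧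
    (∀ i, (U i).card = (Nat.card K - 1).gcd (a i)) ∧
    (Nat.card K - 1) * ∑ t ∈ Fintype.piFinset U, N1 (pull a (fun i => (t i : K)) F) =
      (∏ i, (U i).card) * Nat.card {v : Fin 3 → K // v ≠ 0 ∧ eval v F = 0} := by
  classical
  refine ⟨fun t => ⟨pull_homogeneous a _ F hF, nonsingular_twist a ha F hns _ fun i => (t i).ne_zero⟩,
    fun i => (reps_card (a i) (U i) (hU i)).1, ?_⟩
  have h1 := sum_twists a ha U hU fun v => eval v F = 0
  have hz : eval (0 : Fin 3 → K) F = 0 := by
    have h2 : eval (0 : Fin 3 → K) (pull a 1 F) = 0 := by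
      have h3 := eval_smul_hom (pull_homogeneous a (1 : Fin 3 → K) F hF) (0 : K) 0
      rw [smul_zero, zero_pow hd.ne', zero_mul] at h3
      exact h3
    rw [eval_pull] at h2
    have h4 : (fun i => (1 : Fin 3 → K) i * (0 : Fin 3 → K) i ^ a i) = 0 := by
      funext i
      rw [Pi.zero_apply, zero_pow (ha i).ne', mul_zero]
    rwa [h4] at h2
  have h5 : ((Finset.univ : Finset (Fin 3 → K)).filter fun v => eval v F = 0).card =
      1 + Nat.card {v : Fin 3 → K // v ≠ 0 ∧ eval v F = 0} := by
    have h6 : (Finset.univ : Finset (Fin 3 → K)).filter (fun v => eval v F = 0) =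
        insert 0 ((Finset.univ : Finset (Fin 3 → K)).filter fun v => v ≠ 0 ∧ eval v F = 0) := by
      ext v
      simp only [Finset.mem_filter, Finset.mem_univ, true_and, Finset.mem_insert]
      constructor
      · intro h
        by_cases hv : v = 0
        · exact Or.inl hv
        · exact Or.inr ⟨hv, h⟩
      · rintro (rfl | h)
        · exact hz
        · exact h.2
    rw [h6, Finset.card_insert_of_notMem (by simp), Nat.card_eq_fintype_card,
      Fintype.card_subtype, add_comm]
  have h7 : ∀ t : Fin 3 → Kˣ,
      ((Finset.univ : Finset (Fin 3 → K)).filter fun v =>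
        eval (fun i => (t i : K) * v i ^ a i) F = 0).card =
      1 + (Nat.card K - 1) * N1 (pull a (fun i => (t i : K)) F) := by
    intro t
    have h8 := filter_card hd (pull_homogeneous a (fun i => (t i : K)) F hF)
    rw [card_cone (pull_homogeneous a (fun i => (t i : K)) F hF)] at h8
    rw [← h8]
    simp only [eval_pull]
  rw [Finset.sum_congr rfl fun t _ => h7 t, Finset.sum_add_distrib, Finset.sum_const,
    Fintype.card_piFinset, smul_eq_mul, mul_one, h5, mul_add, mul_one, Nat.add_left_cancel_iff,
    ← Finset.mul_sum] at h1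
  exact h1

theorem hyperelliptic {K : Type} [Field K] [Fintype K] (n : ℕ) (h2n : ((2 * n : ℕ) : K) ≠ 0)
    (g : MvPolynomial (Fin 2) K) (hg : g.IsHomogeneous (2 * n)) (hs : Simple g) (U : Finset Kˣ)
    (hU : Reps n U) :
    (∀ c : Kˣ, (cover n (c : K) g).IsHomogeneous (2 * n) ∧ Nonsingular (cover n (c : K) g)) ∧
    U.card = (Nat.card K - 1).gcd n ∧
    ∑ c ∈ U, N1 (cover n (c : K) g) = (Nat.card K - 1).gcd n * hypPoints g := by
  classical
  have hn : 0 < n := by
    rcases Nat.eq_zero_or_pos n with h | h
    · subst h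
      simp at h2n
    · exact h
  have ha : ∀ i, 0 < (![1, 1, n] : Fin 3 → ℕ) i := by
    intro i
    fin_cases i
    · exact Nat.one_pos
    · exact Nat.one_pos
    · exact hn
  have hV : ∀ i, Reps ((![1, 1, n] : Fin 3 → ℕ) i) ((![{1}, {1}, U] : Fin 3 → Finset Kˣ) i) := by
    intro i
    fin_cases i
    · exact reps_one
    · exact reps_one
    · exact hU
  obtain ⟨h1, h2, h3⟩ := general ![1, 1, n] ha (show 0 < 2 * n by omega) (hyp g)
    (hyp_weighted n g hg) (hyp_nonsingular n h2n g hs) ![{1}, {1}, U] hV
  have hvec : ∀ c : Kˣ, (fun i => (((![1, 1, c] : Fin 3 → Kˣ) i : Kˣ) : K)) = ![1, 1, (c : K)] := by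
    intro c
    funext i
    fin_cases i <;> simp
  have hcard : U.card = (Nat.card K - 1).gcd n := h2 2
  refine ⟨?_, hcard, ?_⟩
  · intro c
    have := h1 ![1, 1, c]
    rw [hvec, pull_hyp] at this
    exact this
  · have h4 : ∑ t ∈ Fintype.piFinset (![{1}, {1}, U] : Fin 3 → Finset Kˣ),
        N1 (pull ![1, 1, n] (fun i => (t i : K)) (hyp g)) = ∑ c ∈ U, N1 (cover n (c : K) g) := by
      refine Finset.sum_bij' (fun t _ => t 2) (fun c _ => ![1, 1, c]) ?_ ?_ ?_ ?_ ?_
      · intro t ht
        exact (Fintype.mem_piFinset.mp ht) 2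
      · intro c hc
        rw [Fintype.mem_piFinset]
        intro i
        fin_cases i
        · exact Finset.mem_singleton_self _
        · exact Finset.mem_singleton_self _
        · exact hc
      · intro t ht
        funext i
        have := (Fintype.mem_piFinset.mp ht) i
        fin_cases i
        · exact (Finset.mem_singleton.mp this).symm
        · exact (Finset.mem_singleton.mp this).symm
        · rfl
      · intro c hc
        rfl
      · intro t ht
        have h5 : t = ![1, 1, t 2] := by
          funext i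
          have := (Fintype.mem_piFinset.mp ht) i
          fin_cases i
          · exact Finset.mem_singleton.mp this
          · exact Finset.mem_singleton.mp this
          · rfl
        rw [← pull_hyp, ← hvec, ← h5]
    have h6 : ∏ i, ((![{1}, {1}, U] : Fin 3 → Finset Kˣ) i).card = U.card := by
      rw [Fin.prod_univ_three]
      simp
    rw [h4, h6, card_hyp n g hg hn, hcard] at h3
    have hq : 0 < Nat.card K - 1 := by
      rw [Nat.card_eq_fintype_card]
      have := Fintype.one_lt_card (α := K)
      omega
    refine Nat.eq_of_mul_eq_mul_left hq ?_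
    rw [h3]
    ring

/-- **Averaging over twists (MP_0d40a0_lc).**  `K` is a finite field with `q` elements.

(1) `a` positive weights, `F` weighted homogeneous of degree `d > 0` such that
`F (X^(a_0), Y^(a_1), Z^(a_2))` is nonsingular, `U_i` representatives of the units modulo `a_i`-th
powers.  Then all twists `F (t_0 X^(a_0), t_1 Y^(a_1), t_2 Z^(a_2))` are homogeneous of degree `d`
and nonsingular, `#U_i = gcd (q - 1, a_i)`, and `q - 1` times the sum of the numbers `N_1` of the
twists by the elements of `U_0 × U_1 × U_2` is `#U_0 #U_1 #U_2` times the number of nonzero zeros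
of `F` in `K ^ 3`.

(2) `n` with `2 n ≠ 0` in `K`, `g` a binary form of degree `2 n` without repeated factor, `U`
representatives of the units modulo `n`-th powers.  Then the plane curves
`c ^ 2 Y ^ (2 n) = g (X, Z)` are nonsingular of degree `2 n` and the sum over `c` in `U` of their
numbers `N_1` is `gcd (q - 1, n)` times the number of points of the hyperelliptic curve
`y ^ 2 = g (x, z)`. -/
theorem result {K : Type} [Field K] [Fintype K] :
    (∀ (a : Fin 3 → ℕ) (d : ℕ) (F : MvPolynomial (Fin 3) K) (U : Fin 3 → Finset Kˣ),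
      (∀ i, 0 < a i) → 0 < d → IsWeightedHomogeneous a F d → Nonsingular (pull a 1 F) →
      (∀ i, Reps (a i) (U i)) →
      (∀ t : Fin 3 → Kˣ, (pull a (fun i => (t i : K)) F).IsHomogeneous d ∧
        Nonsingular (pull a (fun i => (t i : K)) F)) ∧
      (∀ i, (U i).card = (Nat.card K - 1).gcd (a i)) ∧
      (Nat.card K - 1) * ∑ t ∈ Fintype.piFinset U, N1 (pull a (fun i => (t i : K)) F) =
        (∏ i, (U i).card) * Nat.card {v : Fin 3 → K // v ≠ 0 ∧ eval v F = 0}) ∧
    (∀ (n : ℕ) (g : MvPolynomial (Fin 2) K) (U : Finset Kˣ), ((2 * n : ℕ) : K) ≠ 0 →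
      g.IsHomogeneous (2 * n) → Simple g → Reps n U →
      (∀ c : Kˣ, (cover n (c : K) g).IsHomogeneous (2 * n) ∧ Nonsingular (cover n (c : K) g)) ∧
      U.card = (Nat.card K - 1).gcd n ∧
      ∑ c ∈ U, N1 (cover n (c : K) g) = (Nat.card K - 1).gcd n * hypPoints g) :=
  ⟨fun a _ F U ha hd hF hns hU => general a ha hd F hF hns U hU,
    fun n g U h2n hg hs hU => hyperelliptic n h2n g hg hs U hU⟩

end Pool.Agent.Results.MP_0d40a0_lc.TwistAverage
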